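import Pool.Agent.H113Z.Dist.Defs

/-! The rolling-up lemma `RollStmt`. -/

namespace Pool.Agent.H113Z.Dist
open Filter Topology Set

namespace RollAux

/-- the translate of `u` by `j τ` -/
noncomputable def fj (u : Pm) (τ : ℝ) (j : ℕ) : Pm := tr (j * τ) * u * tr (-(j * τ))

theorem fj_apply (u : Pm) (τ : ℝ) (j : ℕ) (x : ℝ) :
    fj u τ j x = u (x + -(j * τ)) + j * τ := rfl

theorem fj_coe (u : Pm) (τ : ℝ) (j : ℕ) :
    ⇑(fj u τ j) = fun x => j * τ + u (x + -(j * τ)) := by
  funext x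
  rw [fj_apply, add_comm]

theorem D_fj (u : Pm) (τ : ℝ) (j k : ℕ) (hk : 0 < k) (x : ℝ) :
    D k (fj u τ j) x = D k u (x + -(j * τ)) := by
  unfold D
  rw [fj_coe, iteratedDeriv_const_add hk, iteratedDeriv_comp_add_const]

theorem deriv_fj (u : Pm) (τ : ℝ) (j : ℕ) (x : ℝ) :
    deriv (fj u τ j) x = deriv u (x + -(j * τ)) := by
  have h := D_fj u τ j 1 one_pos x
  simpa [D, iteratedDeriv_one] using h

theorem Bd_fj {u : Pm} {s η : ℝ} (h : ∀ x, Bd u x s η) (τ : ℝ) (j : ℕ) (x : ℝ) :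
    Bd (fj u τ j) x s η := by
  unfold Bd
  rw [deriv_fj, D_fj u τ j 2 (by norm_num), D_fj u τ j 3 (by norm_num),
    D_fj u τ j 4 (by norm_num)]
  exact h _

theorem Good_fj (hT : ToolStmt) {u : Pm} (hu : Good u) (τ : ℝ) (j : ℕ) : Good (fj u τ j) :=
  hT.1 _ _ (hT.1 _ _ (hT.2.2.2.1 _).1 hu) (hT.2.2.2.1 _).1

theorem fj_fix_left {u : Pm} {α β τ : ℝ} (hs : Supp u α β) (j : ℕ) {x : ℝ}
    (hx : x ≤ α + j * τ) : fj u τ j x = x := by
  rw [fj_apply, hs _ (Or.inl (by linarith))]
  ring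

theorem fj_fix_right {u : Pm} {α β τ : ℝ} (hs : Supp u α β) (j : ℕ) {x : ℝ}
    (hx : β + j * τ ≤ x) : fj u τ j x = x := by
  rw [fj_apply, hs _ (Or.inr (by linarith))]
  ring

theorem fj_disp {u : Pm} {a : ℝ} (ha : ∀ x, |u x - x| ≤ a) (τ : ℝ) (j : ℕ) (x : ℝ) :
    |fj u τ j x - x| ≤ a := by
  have h := ha (x + -(j * τ))
  have e : fj u τ j x - x = u (x + -(j * τ)) - (x + -(j * τ)) := by
    rw [fj_apply]; ring
  rw [e]; exact h

/-- the window product `f j * ... * f (j + n - 1)` -/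
noncomputable def W (u : Pm) (τ : ℝ) (j n : ℕ) : Pm := ((List.range' j n).map (fj u τ)).prod

theorem W_zero (u : Pm) (τ : ℝ) (j : ℕ) : W u τ j 0 = 1 := by simp [W]

theorem W_succ (u : Pm) (τ : ℝ) (j n : ℕ) : W u τ j (n + 1) = fj u τ j * W u τ (j + 1) n := by
  simp [W, List.range'_succ]

theorem W_add (u : Pm) (τ : ℝ) (j m n : ℕ) :
    W u τ j (m + n) = W u τ j m * W u τ (j + m) n := by
  induction m generalizing j with
  | zero => simp [W_zero]
  | succ m ih =>
    have e : m + 1 + n = (m + n) + 1 := by omega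
    have e2 : j + (m + 1) = j + 1 + m := by omega
    rw [e, W_succ, W_succ, ih, e2, mul_assoc]

theorem W_fix_left {u : Pm} {α β τ : ℝ} (hs : Supp u α β) (hτ : 0 < τ) (j n : ℕ) {x : ℝ}
    (hx : x ≤ α + j * τ) : W u τ j n x = x := by
  induction n generalizing j with
  | zero => simp [W_zero]
  | succ n ih =>
    rw [W_succ, Equiv.Perm.mul_apply, ih (j + 1) (by push_cast; linarith), fj_fix_left hs j hx]

theorem W_fix_right {u : Pm} {α β τ : ℝ} (hs : Supp u α β) (hτ : 0 < τ) (j n : ℕ) {x : ℝ}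
    (hx : β + ((j : ℝ) + n - 1) * τ ≤ x) : W u τ j n x = x := by
  induction n generalizing j with
  | zero => simp [W_zero]
  | succ n ih =>
    rw [W_succ, Equiv.Perm.mul_apply, ih (j + 1) (by push_cast at hx ⊢; linarith)]
    refine fj_fix_right hs j ?_
    have : (0 : ℝ) ≤ n * τ := by positivity
    push_cast at hx
    linarith

theorem W_disp {u : Pm} {a : ℝ} (ha : ∀ x, |u x - x| ≤ a) (τ : ℝ) (j n : ℕ) (x : ℝ) :
    |W u τ j n x - x| ≤ n * a := by
  induction n generalizing j with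
  | zero => simp [W_zero]
  | succ n ih =>
    rw [W_succ, Equiv.Perm.mul_apply]
    have h1 := fj_disp ha τ j (W u τ (j + 1) n x)
    have h2 := ih (j + 1)
    have h3 := abs_sub_le (fj u τ j (W u τ (j + 1) n x)) (W u τ (j + 1) n x) x
    push_cast
    linarith

theorem W_shift (u : Pm) (τ : ℝ) (j n : ℕ) (x : ℝ) :
    W u τ (j + 1) n (x + τ) = W u τ j n x + τ := by
  induction n generalizing j with
  | zero => simp [W_zero]
  | succ n ih =>
    rw [W_succ, W_succ, Equiv.Perm.mul_apply, Equiv.Perm.mul_apply, ih (j + 1), fj_apply,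
      fj_apply]
    have e : W u τ (j + 1) n x + τ + -(((j + 1 : ℕ) : ℝ) * τ) = W u τ (j + 1) n x + -(j * τ) := by
      push_cast; ring
    rw [e]
    push_cast; ring

theorem W_good (hT : ToolStmt) {u : Pm} (hu : Good u) (τ : ℝ) (j n : ℕ) : Good (W u τ j n) := by
  induction n generalizing j with
  | zero =>
    rw [W_zero]
    have h := (hT.2.2.2.1 0).1
    have e : tr 0 = 1 := by ext x; simp
    rwa [e] at h
  | succ n ih => rw [W_succ]; exact hT.1 _ _ (Good_fj hT hu τ j) (ih _)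

theorem W_Bd (hT : ToolStmt) {u : Pm} (hu : Good u) {s η : ℝ} (hs : 0 < s) (hη : 0 ≤ η)
    (h : ∀ x, Bd u x s η) (τ : ℝ) (j n : ℕ) (hn : 60 * (n : ℝ) * η ≤ 1) (x : ℝ) :
    Bd (W u τ j n) x s (60 * n * η) := by
  have hl : ((List.range' j n).map (fj u τ)).length = n := by simp
  have := hT.2.2.2.2.2.2.2.2 ((List.range' j n).map (fj u τ)) s η hs hη (by
    intro f hf
    obtain ⟨k, -, rfl⟩ := List.mem_map.1 hf
    exact ⟨Good_fj hT hu τ k, Bd_fj h τ k⟩) (by rw [hl]; exact hn)
  rw [hl] at this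
  exact this.2 x

theorem W_D2 (hT : ToolStmt) {u : Pm} (hu : Good u) {s η a τ : ℝ} (hs : 0 < s) (hη : 0 ≤ η)
    (h : ∀ x, Bd u x s η) (ha : ∀ x, |u x - x| ≤ a) (l : ℕ) (hl : 60 * (l : ℝ) * η ≤ 1)
    (hla : 4 * (l : ℝ) * a ≤ τ) (x : ℝ) (c : ℕ → ℝ) (hc0 : ∀ k, 0 ≤ c k)
    (hc : ∀ k y, |y - x| ≤ τ / 4 → |D 2 (fj u τ k) y| ≤ c k) (j n : ℕ) (hn : n ≤ l) :
    |D 2 (W u τ j n) x| ≤ (1 + η) ^ n * (4 * ∑ i ∈ Finset.range n, c (j + i)) := by
  have ha0 : 0 ≤ a := (abs_nonneg _).trans (ha 0)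
  induction n generalizing j with
  | zero =>
    have e : ⇑(W u τ j 0) = id := by rw [W_zero]; rfl
    rw [e]
    have : D 2 (id : ℝ → ℝ) x = 0 := by
      unfold D
      rw [iteratedDeriv_succ, iteratedDeriv_one]
      simp
    rw [this]; simp
  | succ n ih =>
    have hnl : (n : ℝ) ≤ l := by exact_mod_cast (Nat.le_succ n).trans hn
    have hg := W_good hT hu τ (j + 1) n
    have hf := Good_fj hT hu τ j
    have e : ⇑(W u τ j (n + 1)) = fj u τ j ∘ W u τ (j + 1) n := by rw [W_succ]; rfl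
    have hn' : 60 * (n : ℝ) * η ≤ 1 := by nlinarith
    have hB := (W_Bd hT hu hs hη h τ (j + 1) n hn' x).1
    have hB' := (Bd_fj h τ j (W u τ (j + 1) n x)).1
    have hd : |W u τ (j + 1) n x - x| ≤ τ / 4 := by
      have := W_disp ha τ (j + 1) n x
      nlinarith
    have h1 := hc j _ hd
    have h2 := ih (j + 1) (by omega)
    rw [e]
    unfold D at *
    rw [iteratedDeriv_comp_two (hf.1.contDiffAt.of_le (by norm_num))
      (hg.1.contDiffAt.of_le (by norm_num))]
    have h3 : |deriv (W u τ (j + 1) n) x| ≤ 2 := by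
      have := abs_le.1 hB
      rw [abs_le]; constructor <;> linarith
    have h4 : |deriv (fj u τ j) (W u τ (j + 1) n x)| ≤ 1 + η := by
      have := abs_le.1 hB'
      rw [abs_le]; constructor <;> linarith
    have h5 : deriv (W u τ (j + 1) n) x ^ 2 ≤ 4 := by
      have := sq_abs (deriv (W u τ (j + 1) n) x)
      nlinarith [abs_nonneg (deriv (W u τ (j + 1) n) x)]
    have hS : 0 ≤ ∑ i ∈ Finset.range n, c (j + 1 + i) := Finset.sum_nonneg fun i _ => hc0 _
    have hp : 1 ≤ (1 + η) ^ (n + 1) := one_le_pow₀ (by linarith)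
    have hsum : ∑ i ∈ Finset.range (n + 1), c (j + i)
        = c j + ∑ i ∈ Finset.range n, c (j + 1 + i) := by
      rw [Finset.sum_range_succ', add_comm]
      congr 1
      refine Finset.sum_congr rfl fun i _ => ?_
      have : j + (i + 1) = j + 1 + i := by omega
      rw [this]
    rw [hsum]
    calc _ ≤ |iteratedDeriv 2 (fj u τ j) (W u τ (j + 1) n x) * deriv (W u τ (j + 1) n) x ^ 2|
          + |deriv (fj u τ j) (W u τ (j + 1) n x) * iteratedDeriv 2 (W u τ (j + 1) n) x| :=
          abs_add_le _ _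
      _ ≤ c j * 4 + (1 + η) * ((1 + η) ^ n * (4 * ∑ i ∈ Finset.range n, c (j + 1 + i))) := by
          rw [abs_mul, abs_mul, abs_of_nonneg (sq_nonneg (deriv (W u τ (j + 1) n) x))]
          refine add_le_add (mul_le_mul h1 h5 (sq_nonneg _) (hc0 _)) ?_
          exact mul_le_mul h4 h2 (abs_nonneg _) (by linarith)
      _ ≤ _ := by
          have e1 : (1 + η) * ((1 + η) ^ n * (4 * ∑ i ∈ Finset.range n, c (j + 1 + i)))
              = (1 + η) ^ (n + 1) * (4 * ∑ i ∈ Finset.range n, c (j + 1 + i)) := by ring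
          rw [e1]
          have := hc0 j
          nlinarith

theorem count_le (c R τ : ℝ) (hτ : 0 < τ) (hR : 0 ≤ R) (n : ℕ) :
    ∑ i ∈ Finset.range n, (if |c - i * τ| ≤ R then (1 : ℝ) else 0) ≤ 2 * R / τ + 1 := by
  classical
  rw [Finset.sum_boole]
  have hsub : ((Finset.range n).filter fun i : ℕ => |c - i * τ| ≤ R).card
      ≤ (Finset.Icc ⌈(c - R) / τ⌉ ⌊(c + R) / τ⌋).card := by
    refine Finset.card_le_card_of_injOn (fun i : ℕ => (i : ℤ)) ?_ ?_
    · intro i hi
      have hi' := (Finset.mem_filter.1 (Finset.mem_coe.1 hi)).2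
      have := abs_le.1 hi'
      simp only [Finset.coe_Icc, Set.mem_Icc]
      constructor
      · rw [Int.ceil_le, div_le_iff₀ hτ]; push_cast; linarith
      · rw [Int.le_floor, le_div_iff₀ hτ]; push_cast; linarith
    · intro a _ b _ hab
      exact Int.natCast_inj.1 hab
  rw [Int.card_Icc] at hsub
  have h1 : (((⌊(c + R) / τ⌋ + 1 - ⌈(c - R) / τ⌉).toNat : ℕ) : ℝ) ≤ 2 * R / τ + 1 := by
    have h0 : 0 ≤ 2 * R / τ + 1 := by positivity
    rcases le_total (⌊(c + R) / τ⌋ + 1 - ⌈(c - R) / τ⌉) 0 with h | h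
    · rw [Int.toNat_eq_zero.2 h]; simpa using h0
    · have e : (((⌊(c + R) / τ⌋ + 1 - ⌈(c - R) / τ⌉).toNat : ℕ) : ℝ)
          = ((⌊(c + R) / τ⌋ + 1 - ⌈(c - R) / τ⌉ : ℤ) : ℝ) := by
        rw [← Int.cast_natCast, Int.toNat_of_nonneg h]
      rw [e]
      have h2 := Int.floor_le ((c + R) / τ)
      have h3 := Int.le_ceil ((c - R) / τ)
      have h4 : (c + R) / τ - (c - R) / τ = 2 * R / τ := by field_simp; ring
      push_cast
      linarith
  exact le_trans (by exact_mod_cast hsub) h1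

theorem Bd_congr {f g : ℝ → ℝ} {x s η : ℝ} (h : f =ᶠ[𝓝 x] g) (hg : Bd g x s η) : Bd f x s η := by
  unfold Bd D at *
  rw [h.deriv_eq, h.iteratedDeriv_eq 2, h.iteratedDeriv_eq 3, h.iteratedDeriv_eq 4]
  exact hg

end RollAux

open RollAux in
theorem roll (hT : ToolStmt) : RollStmt := by
  classical
  intro u α β s η a τ l M0 M1 r T Γ H
  obtain ⟨hu, hs, hαβ, hτ, hτs, hη, hB, ha, hl, hlη, hla, hM0, hM1, hr, hD, hD'⟩ := H
  have hs0 : 0 < s := hτ.trans_le hτs
  have hl' : β - α + 4 * τ ≤ l * τ := by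
    have h1 : (β - α) / τ ≤ l - 4 := by linarith
    rw [div_le_iff₀ hτ] at h1
    linarith
  have hl1 : 1 ≤ l := by
    have h0 : 0 ≤ (β - α) / τ := div_nonneg (by linarith) hτ.le
    have : (1 : ℝ) ≤ l := by linarith
    exact_mod_cast this
  set J := ⌊(Γ - β) / τ⌋₊ with hJ
  have hJ1 : Γ - β < (J + 1) * τ := by
    have := Nat.lt_floor_add_one ((Γ - β) / τ)
    rw [div_lt_iff₀ hτ] at this
    exact this
  refine ⟨W u τ 0 (J + l), W_good hT hu τ 0 _, fun x hx => W_fix_left hs hτ 0 _ (by simpa using hx),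
    fun x hx => ?_, fun x hx => ?_⟩
  · obtain ⟨m, hm⟩ : ∃ m, J + l = m + 1 := ⟨J + l - 1, by omega⟩
    have hm' : (m : ℝ) = J + l - 1 := by
      have : ((J + l : ℕ) : ℝ) = ((m + 1 : ℕ) : ℝ) := by rw [hm]
      push_cast at this
      linarith
    rw [hm]
    have e1 : W u τ 0 (m + 1) x = W u τ 0 m x := by
      rw [W_add, Equiv.Perm.mul_apply, W_fix_left hs hτ (0 + m) 1 (by
        rw [zero_add, hm']; nlinarith)]
    rw [e1, W_succ, Equiv.Perm.mul_apply, W_shift, fj_apply]
    simp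
  · set j := ⌊(x - β) / τ⌋₊ with hj
    have hjJ : j ≤ J := Nat.floor_le_floor (div_le_div_of_nonneg_right (by linarith) hτ.le)
    have hj1 : x - β < (j + 1) * τ := by
      have := Nat.lt_floor_add_one ((x - β) / τ)
      rw [div_lt_iff₀ hτ] at this
      exact this
    have ha0 : 0 ≤ a := (abs_nonneg _).trans (ha 0)
    have hloc : ∀ y, |y - x| < τ / 2 → W u τ 0 (J + l) y = W u τ j l y := by
      intro y hy
      have hy' := abs_lt.1 hy
      have e : J + l = j + (l + (J - j)) := by omega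
      rw [e, W_add, W_add, Equiv.Perm.mul_apply, Equiv.Perm.mul_apply, zero_add,
        W_fix_left hs hτ (j + l) (J - j) (by push_cast; nlinarith)]
      rcases Nat.eq_zero_or_pos j with h0 | h0
      · rw [h0, W_zero]; rfl
      · refine W_fix_right hs hτ 0 j ?_
        have h1 : (j : ℝ) ≤ (x - β) / τ := by
          refine Nat.floor_le ?_
          by_contra hneg
          have := Nat.floor_of_nonpos (le_of_lt (not_le.1 hneg))
          omega
        rw [le_div_iff₀ hτ] at h1
        have h2 := abs_le.1 (W_disp ha τ j l y)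
        push_cast
        nlinarith
    have hev : ⇑(W u τ 0 (J + l)) =ᶠ[𝓝 x] ⇑(W u τ j l) := by
      have : Metric.ball x (τ / 2) ∈ 𝓝 x := Metric.ball_mem_nhds x (by linarith)
      filter_upwards [this] with y hy
      exact hloc y (by simpa [Real.dist_eq] using hy)
    refine ⟨?_, Bd_congr hev (W_Bd hT hu hs0 hη.le hB τ j l hlη x), ?_⟩
    · rw [hloc x (by simpa using hτ)]
      have := W_disp ha τ j l x
      linarith
    · have e : D 2 (W u τ 0 (J + l)) x = D 2 (W u τ j l) x := hev.iteratedDeriv_eq 2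
      rw [e]
      set c : ℕ → ℝ := fun k =>
        M0 + M1 * ∑ t ∈ T, (if |x - t - k * τ| ≤ r + τ / 4 then (1 : ℝ) else 0) with hc
      have hind : ∀ (k : ℕ) (t : ℝ),
          0 ≤ (if |x - t - k * τ| ≤ r + τ / 4 then (1 : ℝ) else 0) := by
        intro k t; split_ifs <;> norm_num
      have hc0 : ∀ k, 0 ≤ c k := fun k =>
        add_nonneg hM0 (mul_nonneg hM1 (Finset.sum_nonneg fun t _ => hind k t))
      have hcb : ∀ k y, |y - x| ≤ τ / 4 → |D 2 (fj u τ k) y| ≤ c k := by
        intro k y hy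
        rw [D_fj u τ k 2 (by norm_num)]
        by_cases hfar : ∀ t ∈ T, r < |y + -(k * τ) - t|
        · refine (hD' _ hfar).trans ?_
          exact le_add_of_nonneg_right (mul_nonneg hM1 (Finset.sum_nonneg fun t _ => hind k t))
        · push Not at hfar
          obtain ⟨t, ht, hle⟩ := hfar
          refine (hD _).trans ?_
          have h1 : |x - t - k * τ| ≤ r + τ / 4 := by
            have h2 := abs_le.1 hle
            have h3 := abs_le.1 hy
            rw [abs_le]; constructor <;> linarith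
          have h2 : (1 : ℝ) ≤ ∑ t ∈ T, (if |x - t - k * τ| ≤ r + τ / 4 then (1 : ℝ) else 0) := by
            have := Finset.single_le_sum (f := fun t => (if |x - t - k * τ| ≤ r + τ / 4 then (1 : ℝ)
              else 0)) (fun t _ => hind k t) ht
            simpa [h1] using this
          have : M1 ≤ M1 * ∑ t ∈ T, (if |x - t - k * τ| ≤ r + τ / 4 then (1 : ℝ) else 0) :=
            le_mul_of_one_le_right hM1 h2
          show M0 + M1 ≤ M0 + M1 * _
          linarith
      have hmain := W_D2 hT hu hs0 hη.le hB ha l hlη hla x c hc0 hcb j l le_rfl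
      have hpow : (1 + η) ^ l ≤ 3 := by
        have h1 : (1 + η) ^ l ≤ Real.exp η ^ l :=
          pow_le_pow_left₀ (by linarith) (by linarith [Real.add_one_le_exp η]) l
        rw [← Real.exp_nat_mul] at h1
        have h2 : Real.exp (l * η) ≤ Real.exp 1 := Real.exp_le_exp.2 (by nlinarith)
        linarith [Real.exp_one_lt_d9]
      have hsum : ∑ i ∈ Finset.range l, c (j + i) ≤ 2 * Om τ l M0 M1 r T := by
        have e1 : ∑ i ∈ Finset.range l, c (j + i) = l * M0 + M1 * ∑ t ∈ T, ∑ i ∈ Finset.range l,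
            (if |x - t - j * τ - i * τ| ≤ r + τ / 4 then (1 : ℝ) else 0) := by
          simp only [hc]
          rw [Finset.sum_add_distrib, Finset.sum_const, Finset.card_range, nsmul_eq_mul,
            ← Finset.mul_sum, Finset.sum_comm]
          congr 2
          refine Finset.sum_congr rfl fun t _ => Finset.sum_congr rfl fun i _ => ?_
          have e2 : x - t - ((j + i : ℕ) : ℝ) * τ = x - t - j * τ - i * τ := by push_cast; ring
          rw [e2]
        have h2 : ∑ t ∈ T, ∑ i ∈ Finset.range l,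
            (if |x - t - j * τ - i * τ| ≤ r + τ / 4 then (1 : ℝ) else 0)
            ≤ T.card * (2 * (r / τ + 1)) := by
          refine (Finset.sum_le_card_nsmul T _ (2 * (r / τ + 1)) fun t _ => ?_).trans
            (nsmul_eq_mul _ _).le
          refine (count_le _ _ τ hτ (by linarith) l).trans ?_
          have e3 : 2 * (r + τ / 4) / τ = 2 * (r / τ) + 1 / 2 := by field_simp; ring
          rw [e3]; linarith
        rw [e1]
        unfold Om
        have h3 := mul_le_mul_of_nonneg_left h2 hM1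
        have h4 : (0 : ℝ) ≤ l * M0 := by positivity
        nlinarith
      have hS : 0 ≤ ∑ i ∈ Finset.range l, c (j + i) := Finset.sum_nonneg fun i _ => hc0 _
      have hOm : 0 ≤ Om τ l M0 M1 r T := by linarith
      calc _ ≤ _ := hmain
        _ ≤ 3 * (4 * ∑ i ∈ Finset.range l, c (j + i)) :=
            mul_le_mul_of_nonneg_right hpow (by linarith)
        _ ≤ _ := by linarith

end Pool.Agent.H113Z.Dist
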